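import Mathlib

/-!
Polar form of the products `∏ (w + j)` and monotonicity of modulus and argument.
-/

open Finset Real

namespace Pool.Agent.MP_74ce82_an.H95

/-- Total argument of `∏_{j<N} (x + j + i y)` for `x > 0`. -/
noncomputable def Th (N : ℕ) (x y : ℝ) : ℝ := ∑ j ∈ range N, arctan (y / (x + j))

/-- Modulus of `∏_{j<N} (x + j + i y)`. -/
noncomputable def Md (N : ℕ) (x y : ℝ) : ℝ := ∏ j ∈ range N, √((x + j) ^ 2 + y ^ 2)

theorem polar (a y : ℝ) (ha : 0 < a) :
    (a : ℂ) + y * Complex.I =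
      (√(a ^ 2 + y ^ 2) : ℝ) * Complex.exp ((arctan (y / a) : ℝ) * Complex.I) := by
  have h1 : √(a ^ 2 + y ^ 2) = a * √(1 + (y / a) ^ 2) := by
    rw [← sqrt_sq ha.le, ← sqrt_mul (sq_nonneg a), sqrt_sq ha.le]
    congr 1
    field_simp
  have h2 : 0 < √(1 + (y / a) ^ 2) := sqrt_pos.2 (by positivity)
  rw [Complex.exp_mul_I, ← Complex.ofReal_cos, ← Complex.ofReal_sin, cos_arctan, sin_arctan, h1]
  apply Complex.ext
  · simp only [Complex.add_re, Complex.ofReal_re, Complex.mul_re, Complex.I_re, mul_zero,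
      Complex.ofReal_im, Complex.I_im, mul_one, sub_self, add_zero, Complex.add_im, Complex.mul_im,
      zero_add, zero_mul, sub_zero]
    field_simp
  · simp only [Complex.add_re, Complex.ofReal_re, Complex.mul_re, Complex.I_re, mul_zero,
      Complex.ofReal_im, Complex.I_im, mul_one, sub_self, add_zero, Complex.add_im, Complex.mul_im,
      zero_add, zero_mul]
    field_simp

theorem prod_polar (N : ℕ) (a y : ℕ → ℝ) (ha : ∀ j ∈ range N, 0 < a j) :
    ∏ j ∈ range N, ((a j : ℂ) + y j * Complex.I) =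
      (∏ j ∈ range N, √(a j ^ 2 + y j ^ 2) : ℝ) *
        Complex.exp ((∑ j ∈ range N, arctan (y j / a j) : ℝ) * Complex.I) := by
  rw [Finset.prod_congr rfl (fun j hj => polar (a j) (y j) (ha j hj)), Finset.prod_mul_distrib,
    ← Complex.exp_sum, ← Finset.sum_mul]
  push_cast
  rfl

theorem Th_neg (N : ℕ) (x y : ℝ) : Th N x (-y) = -Th N x y := by
  simp [Th, neg_div, arctan_neg]

theorem Th_zero (N : ℕ) (x : ℝ) : Th N x 0 = 0 := by simp [Th]

theorem Th_strictMono {N : ℕ} (hN : 0 < N) {x : ℝ} (hx : 0 < x) : StrictMono (Th N x) := by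
  intro y y' h
  refine Finset.sum_lt_sum_of_nonempty (nonempty_range_iff.2 hN.ne') fun j _ => ?_
  apply arctan_strictMono
  have : (0 : ℝ) < x + j := by positivity
  gcongr

theorem Th_anti {N : ℕ} {x x' y : ℝ} (hx : 0 < x) (hxx : x ≤ x') (hy : 0 ≤ y) :
    Th N x' y ≤ Th N x y := by
  refine Finset.sum_le_sum fun j _ => ?_
  apply arctan_mono
  have : (0 : ℝ) < x + j := by positivity
  gcongr

theorem Th_abs {N : ℕ} (hN : 0 < N) {x : ℝ} (hx : 0 < x) (y : ℝ) :
    |Th N x y| = Th N x |y| := by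
  rcases le_total 0 y with h | h
  · rw [abs_of_nonneg h, abs_of_nonneg]
    rw [← Th_zero N x]
    exact (Th_strictMono hN hx).monotone h
  · rw [abs_of_nonpos h, Th_neg, abs_of_nonpos]
    rw [← Th_zero N x]
    exact (Th_strictMono hN hx).monotone h

theorem Th_lt {N : ℕ} (hN : 0 < N) (x y : ℝ) : Th N x y < N * (π / 2) := by
  have := Finset.sum_lt_sum_of_nonempty (nonempty_range_iff.2 hN.ne')
    (fun j _ => arctan_lt_pi_div_two (y / (x + j)))
  simpa [Th] using this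

theorem Md_abs (N : ℕ) (x y : ℝ) : Md N x |y| = Md N x y := by simp [Md]

theorem Md_pos (N : ℕ) {x : ℝ} (hx : 0 < x) (y : ℝ) : 0 < Md N x y :=
  Finset.prod_pos fun j _ => sqrt_pos.2 (by positivity)

theorem Md_mono (N : ℕ) {x x' y y' : ℝ} (hx : 0 ≤ x) (hxx : x ≤ x') (hy : 0 ≤ y) (hyy : y ≤ y') :
    Md N x y ≤ Md N x' y' := by
  refine Finset.prod_le_prod (fun j _ => sqrt_nonneg _) fun j _ => ?_
  gcongr

theorem Md_lt {N : ℕ} (hN : 0 < N) {x x' y y' : ℝ} (hx : 0 < x) (hxx : x < x') (hy : 0 ≤ y)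
    (hyy : y ≤ y') : Md N x y < Md N x' y' := by
  refine Finset.prod_lt_prod_of_nonempty (fun j _ => sqrt_pos.2 (by positivity)) (fun j _ => ?_)
    (nonempty_range_iff.2 hN.ne')
  have h1 : (x + j) ^ 2 < (x' + j) ^ 2 := by gcongr
  have h2 : y ^ 2 ≤ y' ^ 2 := by gcongr
  exact sqrt_lt_sqrt (by positivity) (by linarith)

/-- A point of the right half plane is determined by the modulus and argument of the product. -/
theorem inj_of_Th_Md {N : ℕ} (hN : 0 < N) {x x' y y' : ℝ} (hx : 0 < x) (hx' : 0 < x')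
    (hT : Th N x y = Th N x' y') (hM : Md N x y = Md N x' y') : x = x' ∧ y = y' := by
  have key : ∀ {x x' y y' : ℝ}, 0 < x → x < x' → Th N x y = Th N x' y' →
      Md N x y < Md N x' y' := by
    intro x x' y y' hx hxx hT
    have hx' : 0 < x' := hx.trans hxx
    have h1 : Th N x |y| = Th N x' |y'| := by rw [← Th_abs hN hx, ← Th_abs hN hx', hT]
    have h2 : Th N x' |y| ≤ Th N x' |y'| := h1 ▸ Th_anti hx hxx.le (abs_nonneg y)
    have h3 : |y| ≤ |y'| := (Th_strictMono hN hx').le_iff_le.1 h2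
    rw [← Md_abs N x, ← Md_abs N x']
    exact Md_lt hN hx hxx (abs_nonneg _) h3
  rcases lt_trichotomy x x' with h | h | h
  · exact absurd hM (key hx h hT).ne
  · subst h
    exact ⟨rfl, (Th_strictMono hN hx).injective hT⟩
  · exact absurd hM.symm (key hx' h hT.symm).ne

theorem arctan_le_self {t : ℝ} (ht : 0 ≤ t) : arctan t ≤ t := by
  have h1 : 0 ≤ arctan t := arctan_nonneg.2 ht
  have := le_tan h1 (arctan_lt_pi_div_two t)
  rwa [tan_arctan] at this

theorem sum_half (N : ℕ) : ∑ j ∈ range N, ((1 : ℝ) / 2 + j) = N ^ 2 / 2 := by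
  induction N with
  | zero => simp
  | succ N ih => rw [sum_range_succ, ih]; push_cast; ring

theorem Th_compl (N : ℕ) {x y : ℝ} (hx : 0 < x) (hy : 0 < y) :
    Th N x y = N * (π / 2) - ∑ j ∈ range N, arctan ((x + j) / y) := by
  have : ∀ j ∈ range N, arctan (y / (x + j)) = π / 2 - arctan ((x + j) / y) := by
    intro j _
    rw [← arctan_inv_of_pos (by positivity), inv_div]
  rw [Th, Finset.sum_congr rfl this, Finset.sum_sub_distrib]
  simp

theorem exists_yn {n : ℕ} (hn : 1 ≤ n) :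
    ∃ y : ℝ, 0 ≤ y ∧ Th (2 * n) (1 / 2) y = (n - 1) * π := by
  have hc : Continuous (Th (2 * n) (1 / 2)) := by
    unfold Th
    refine continuous_finsetSum _ fun j _ => continuous_arctan.comp ?_
    fun_prop
  have hn' : (1 : ℝ) ≤ n := by exact_mod_cast hn
  set Y : ℝ := ((2 * n : ℕ) : ℝ) ^ 2 with hY
  have hY0 : 0 < Y := by positivity
  have h1 : ((n : ℝ) - 1) * π ≤ Th (2 * n) (1 / 2) Y := by
    rw [Th_compl _ (by norm_num) hY0]
    have h2 : ∑ j ∈ range (2 * n), arctan ((1 / 2 + (j : ℝ)) / Y) ≤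
        ∑ j ∈ range (2 * n), (1 / 2 + (j : ℝ)) / Y :=
      Finset.sum_le_sum fun j _ => arctan_le_self (by positivity)
    rw [← Finset.sum_div, sum_half, ← hY] at h2
    have h3 : Y / 2 / Y = 1 / 2 := by field_simp
    rw [h3] at h2
    push_cast
    linarith [pi_gt_three]
  obtain ⟨y, hy, hy'⟩ := intermediate_value_Icc hY0.le hc.continuousOn
    (show ((n : ℝ) - 1) * π ∈ Set.Icc (Th (2 * n) (1 / 2) 0) (Th (2 * n) (1 / 2) Y) from
      ⟨by rw [Th_zero]; have : 0 ≤ (n : ℝ) - 1 := by linarith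
          positivity, h1⟩)
  exact ⟨y, hy.1, hy'⟩

/-- Modulus of `∏_{j<N} (x - j + i y)`. -/
noncomputable def Mq (N : ℕ) (x y : ℝ) : ℝ := ∏ j ∈ range N, √((x - j) ^ 2 + y ^ 2)

theorem Mq_step (N : ℕ) {x : ℝ} (y : ℝ) (hx : 2 * x ≤ N) : Mq N x y ≤ Mq N (x - 1) y := by
  cases N with
  | zero => simp [Mq]
  | succ N =>
    unfold Mq
    rw [Finset.prod_range_succ', Finset.prod_range_succ]
    have e : ∏ j ∈ range N, √((x - ((j + 1 : ℕ) : ℝ)) ^ 2 + y ^ 2) =
        ∏ j ∈ range N, √((x - 1 - (j : ℝ)) ^ 2 + y ^ 2) := by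
      refine Finset.prod_congr rfl fun j _ => ?_
      congr 3
      push_cast; ring
    rw [e]
    refine mul_le_mul_of_nonneg_left ?_ (Finset.prod_nonneg fun j _ => sqrt_nonneg _)
    apply sqrt_le_sqrt
    push_cast at hx ⊢
    have : (0 : ℝ) ≤ N := by positivity
    nlinarith

theorem Mq_base {N : ℕ} (hN : 2 ≤ N) {x : ℝ} (y : ℝ) (h1 : -1 / 2 < x) (h2 : x ≤ 1 / 2) :
    Mq N x y < Md N (1 / 2) y := by
  unfold Mq Md
  by_cases h0 : ∃ j ∈ range N, √((x - j) ^ 2 + y ^ 2) = 0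
  · obtain ⟨j, hj, hj0⟩ := h0
    rw [Finset.prod_eq_zero hj hj0]
    exact Md_pos N (by norm_num) y
  · push Not at h0
    refine Finset.prod_lt_prod (fun j hj => lt_of_le_of_ne (sqrt_nonneg _) (h0 j hj).symm)
      (fun j _ => ?_) ⟨1, mem_range.2 (by omega), ?_⟩
    · apply sqrt_le_sqrt
      have : (0 : ℝ) ≤ j := by positivity
      nlinarith
    · apply sqrt_lt_sqrt (by positivity)
      push_cast
      nlinarith

theorem Mq_lt {N : ℕ} (hN : 2 ≤ N) (y : ℝ) (m : ℕ) :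
    ∀ x : ℝ, -1 / 2 < x → x ≤ m + 1 / 2 → 2 * x ≤ N → Mq N x y < Md N (1 / 2) y := by
  induction m with
  | zero => intro x h1 h2 _; exact Mq_base hN y h1 (by simpa using h2)
  | succ m ih =>
    intro x h1 h2 h3
    rcases le_or_gt x (1 / 2) with h | h
    · exact Mq_base hN y h1 h
    · push_cast at h2
      exact (Mq_step N y h3).trans_lt (ih (x - 1) (by linarith) (by linarith) (by linarith))

end Pool.Agent.MP_74ce82_an.H95
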