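import Pool.Agent.MP_74ce82_an.H95.Basic

/-!
Upper and lower bounds for the threshold.
-/

open Finset Real

namespace Pool.Agent.MP_74ce82_an.H95

theorem cos_tangent {u v : ℝ} (hu : u ∈ Set.Icc (-(π / 2)) (π / 2))
    (hv : v ∈ Set.Icc (-(π / 2)) (π / 2)) : cos v ≤ cos u - sin u * (v - u) := by
  have hc := strictConcaveOn_cos_Icc.concaveOn
  rcases lt_trichotomy u v with h | h | h
  · have := hc.slope_le_of_hasDerivAt hu hv h (hasDerivAt_cos u)
    rw [slope_def_field, div_le_iff₀ (sub_pos.2 h)] at this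
    linarith
  · simp [h]
  · have := hc.le_slope_of_hasDerivAt hv hu h (hasDerivAt_cos u)
    rw [slope_def_field, le_div_iff₀ (sub_pos.2 h)] at this
    linarith

theorem polar_re_im (a y : ℝ) (ha : 0 < a) :
    √(a ^ 2 + y ^ 2) * cos (arctan (y / a)) = a ∧ √(a ^ 2 + y ^ 2) * sin (arctan (y / a)) = y := by
  have h := polar a y ha
  rw [Complex.exp_mul_I, ← Complex.ofReal_cos, ← Complex.ofReal_sin] at h
  have h1 := congrArg Complex.re h
  have h2 := congrArg Complex.im h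
  simp only [Complex.mul_re, Complex.ofReal_re, Complex.add_re, Complex.I_re, mul_zero,
    Complex.ofReal_im, Complex.I_im, mul_one, sub_self, add_zero, Complex.add_im, Complex.mul_im,
    zero_add, zero_mul, sub_zero] at h1 h2
  exact ⟨h1.symm, h2.symm⟩

theorem upper {n : ℕ} (hn : 1 ≤ n) {y : ℝ}
    (hT : Th (2 * n) (1 / 2) y = (n - 1) * π) :
    Md (2 * n) (1 / 2) y ^ (1 / (2 * n : ℝ)) < n / sin (π / (2 * n)) := by
  have hn' : (1 : ℝ) ≤ n := by exact_mod_cast hn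
  have hn0 : (0 : ℝ) < n := by linarith
  set ψ : ℝ := π / 2 - π / (2 * n) with hψ
  have h0 : 0 < π / (2 * n) := by positivity
  have h1 : π / (2 * n) ≤ π / 2 := by
    apply div_le_div_of_nonneg_left pi_pos.le (by norm_num); linarith
  have hs : 0 < sin (π / (2 * n)) := sin_pos_of_pos_of_lt_pi h0 (by linarith [pi_pos])
  have hcos : cos ψ = sin (π / (2 * n)) := cos_pi_div_two_sub _
  set ρ : ℕ → ℝ := fun j => √((1 / 2 + (j : ℝ)) ^ 2 + y ^ 2) with hρ
  have hterm : ∀ j ∈ range (2 * n), ρ j * sin (π / (2 * n)) ≤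
      (1 / 2 + (j : ℝ)) - y * (ψ - arctan (y / (1 / 2 + j))) := by
    intro j _
    have h2 := cos_tangent (u := arctan (y / (1 / 2 + j))) (v := ψ)
      ⟨(neg_pi_div_two_lt_arctan _).le, (arctan_lt_pi_div_two _).le⟩
      ⟨by linarith [pi_pos], by linarith⟩
    obtain ⟨h3, h4⟩ := polar_re_im (1 / 2 + j) y (by positivity)
    have h5 := mul_le_mul_of_nonneg_left h2 (sqrt_nonneg ((1 / 2 + (j : ℝ)) ^ 2 + y ^ 2))
    rw [mul_sub, ← mul_assoc, h3, h4, hcos] at h5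
    exact h5
  have hsum := Finset.sum_le_sum hterm
  rw [← Finset.sum_mul, Finset.sum_sub_distrib, sum_half, ← Finset.mul_sum,
    Finset.sum_sub_distrib] at hsum
  have e : ∑ j ∈ range (2 * n), arctan (y / (1 / 2 + (j : ℝ))) = (n - 1) * π := hT
  rw [e] at hsum
  have e2 : ∑ _j ∈ range (2 * n), ψ = (n - 1) * π := by
    simp only [sum_const, card_range, nsmul_eq_mul, hψ]
    push_cast
    field_simp
  rw [e2, sub_self, mul_zero, sub_zero] at hsum
  have hgm := (geom_mean_lt_arith_mean_weighted_iff_of_pos (range (2 * n))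
    (fun _ => 1 / (2 * n : ℝ)) ρ (fun _ _ => by positivity)
    (by simp only [sum_const, card_range, nsmul_eq_mul]; push_cast; field_simp)
    (fun _ _ => sqrt_nonneg _)).2
    ⟨0, mem_range.2 (by omega), 1, mem_range.2 (by omega), by
      apply ne_of_lt
      apply sqrt_lt_sqrt (by positivity)
      norm_num⟩
  rw [finsetProd_rpow _ _ (fun _ _ => sqrt_nonneg _), ← Finset.mul_sum] at hgm
  refine hgm.trans_le ?_
  rw [le_div_iff₀ hs, mul_assoc]
  push_cast at hsum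
  rw [div_mul_eq_mul_div, one_mul, div_le_iff₀ (by positivity)]
  nlinarith

theorem le_arctan_of_deriv {f f' : ℝ → ℝ} (hf : ∀ t, HasDerivAt f (f' t) t) (h0 : f 0 = 0)
    (h : ∀ t, f' t ≤ 1 / (1 + t ^ 2)) {t : ℝ} (ht : 0 ≤ t) : f t ≤ arctan t := by
  have hd : ∀ t, HasDerivAt (fun t => arctan t - f t) (1 / (1 + t ^ 2) - f' t) t :=
    fun t => (hasDerivAt_arctan t).sub (hf t)
  have hm : Monotone (fun t => arctan t - f t) :=
    monotone_of_deriv_nonneg (fun t => (hd t).differentiableAt)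
      (fun t => by rw [(hd t).deriv]; linarith [h t])
  have := hm ht
  simp only [arctan_zero, h0] at this
  linarith

theorem arctan_ge_three {t : ℝ} (ht : 0 ≤ t) : t - t ^ 3 / 3 ≤ arctan t := by
  refine le_arctan_of_deriv (f := fun t => t - t ^ 3 / 3) (f' := fun t => 1 - t ^ 2)
    (fun t => ((hasDerivAt_id t).sub ((hasDerivAt_pow 3 t).div_const 3)).congr_deriv (by simp))
    (by simp) (fun t => ?_) ht
  rw [le_div_iff₀ (by positivity)]
  nlinarith [sq_nonneg (t ^ 2)]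

theorem arctan_ge_seven {t : ℝ} (ht : 0 ≤ t) :
    t - t ^ 3 / 3 + t ^ 5 / 5 - t ^ 7 / 7 ≤ arctan t := by
  refine le_arctan_of_deriv (f := fun t => t - t ^ 3 / 3 + t ^ 5 / 5 - t ^ 7 / 7)
    (f' := fun t => 1 - t ^ 2 + t ^ 4 - t ^ 6)
    (fun t => ((((hasDerivAt_id t).sub ((hasDerivAt_pow 3 t).div_const 3)).add
      ((hasDerivAt_pow 5 t).div_const 5)).sub ((hasDerivAt_pow 7 t).div_const 7)).congr_deriv
      (by simp))
    (by simp) (fun t => ?_) ht
  rw [le_div_iff₀ (by positivity)]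
  nlinarith [sq_nonneg (t ^ 4)]

/-- Sixth convergent of the continued fraction of `arctan`. -/
noncomputable def R6 (t : ℝ) : ℝ :=
  (1155 * t + 1190 * t ^ 3 + 231 * t ^ 5) / (1155 + 1575 * t ^ 2 + 525 * t ^ 4 + 25 * t ^ 6)

theorem arctan_ge_R6 {t : ℝ} (ht : 0 ≤ t) : R6 t ≤ arctan t := by
  refine le_arctan_of_deriv (f := R6)
    (f' := fun t => ((1155 + 3570 * t ^ 2 + 1155 * t ^ 4) *
      (1155 + 1575 * t ^ 2 + 525 * t ^ 4 + 25 * t ^ 6) -
      (1155 * t + 1190 * t ^ 3 + 231 * t ^ 5) * (3150 * t + 2100 * t ^ 3 + 150 * t ^ 5)) /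
      (1155 + 1575 * t ^ 2 + 525 * t ^ 4 + 25 * t ^ 6) ^ 2)
    (fun t => ?_) (by simp [R6]) (fun t => ?_) ht
  · have h1 : HasDerivAt (fun t : ℝ => 1155 * t + 1190 * t ^ 3 + 231 * t ^ 5)
        (1155 + 3570 * t ^ 2 + 1155 * t ^ 4) t :=
      ((((hasDerivAt_id t).const_mul 1155).add ((hasDerivAt_pow 3 t).const_mul 1190)).add
        ((hasDerivAt_pow 5 t).const_mul 231)).congr_deriv (by simp; ring)
    have h2 : HasDerivAt (fun t : ℝ => 1155 + 1575 * t ^ 2 + 525 * t ^ 4 + 25 * t ^ 6)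
        (3150 * t + 2100 * t ^ 3 + 150 * t ^ 5) t :=
      (((((hasDerivAt_pow 2 t).const_mul 1575).const_add 1155).add
        ((hasDerivAt_pow 4 t).const_mul 525)).add
        ((hasDerivAt_pow 6 t).const_mul 25)).congr_deriv (by simp; ring)
    exact h1.div h2 (by positivity)
  · rw [div_le_div_iff₀ (by positivity) (by positivity)]
    have : 0 ≤ 6400 * t ^ 12 := by positivity
    nlinarith

theorem log_ge {u : ℝ} (hu : 0 ≤ u) : u - u ^ 2 / 2 ≤ log (1 + u) := by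
  have hd : ∀ t, 0 ≤ t → HasDerivAt (fun t => log (1 + t) - (t - t ^ 2 / 2))
      (1 / (1 + t) - (1 - t)) t := by
    intro t ht
    exact ((((hasDerivAt_id t).const_add 1).log (by simp; linarith)).sub
      ((hasDerivAt_id t).sub ((hasDerivAt_pow 2 t).div_const 2))).congr_deriv (by simp)
  have hm : MonotoneOn (fun t => log (1 + t) - (t - t ^ 2 / 2)) (Set.Ici 0) := by
    refine monotoneOn_of_deriv_nonneg (convex_Ici 0)
      (fun t ht => (hd t ht).continuousAt.continuousWithinAt)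
      (fun t ht => (hd t (interior_subset ht)).differentiableAt.differentiableWithinAt)
      (fun t ht => ?_)
    have ht' : 0 ≤ t := interior_subset ht
    rw [(hd t ht').deriv, sub_nonneg, le_div_iff₀ (by linarith)]
    nlinarith [sq_nonneg t]
  have := hm (Set.mem_Ici.2 le_rfl) (Set.mem_Ici.2 hu) hu
  simp at this
  linarith

theorem le_y_of_sum {n : ℕ} (hn : 1 ≤ n) {y y₀ : ℝ} (hT : Th (2 * n) (1 / 2) y = (n - 1) * π)
    (h0 : 0 < y₀) (h : π ≤ ∑ j ∈ range (2 * n), arctan ((1 / 2 + (j : ℝ)) / y₀)) : y₀ ≤ y := by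
  have h7 : Th (2 * n) (1 / 2) y₀ ≤ Th (2 * n) (1 / 2) y := by
    rw [hT, Th_compl _ (by norm_num) h0]
    push_cast
    linarith
  exact (Th_strictMono (by omega) (by norm_num)).le_iff_le.1 h7

theorem lower_of_prod {n : ℕ} (hn : 1 ≤ n) {y y₀ : ℝ} (h0 : 0 ≤ y₀) (h1 : y₀ ≤ y)
    (h : (2 * (n : ℝ) ^ 2 / 3.141592) ^ (4 * n) <
      ∏ j ∈ range (2 * n), ((1 / 2 + (j : ℝ)) ^ 2 + y₀ ^ 2)) :
    2 * (n : ℝ) ^ 2 / π < Md (2 * n) (1 / 2) y ^ (1 / (2 * n : ℝ)) := by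
  have hn' : (1 : ℝ) ≤ n := by exact_mod_cast hn
  have h2 : Md (2 * n) (1 / 2) y₀ ^ 2 = ∏ j ∈ range (2 * n), ((1 / 2 + (j : ℝ)) ^ 2 + y₀ ^ 2) := by
    rw [Md, ← Finset.prod_pow]
    exact Finset.prod_congr rfl fun j _ => sq_sqrt (by positivity)
  have h3 : 2 * (n : ℝ) ^ 2 / π ≤ 2 * (n : ℝ) ^ 2 / 3.141592 :=
    div_le_div_of_nonneg_left (by positivity) (by norm_num) pi_gt_d6.le
  have h4 : (2 * (n : ℝ) ^ 2 / 3.141592) ^ (2 * n) < Md (2 * n) (1 / 2) y₀ := by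
    apply lt_of_pow_lt_pow_left₀ 2 (Md_pos _ (by norm_num) _).le
    rw [h2, ← pow_mul]
    rwa [show 2 * n * 2 = 4 * n by ring]
  have h5 := h4.trans_le (Md_mono (2 * n) (by norm_num) le_rfl h0 h1)
  refine h3.trans_lt ?_
  rw [one_div (2 * n : ℝ), lt_rpow_inv_iff_of_pos (by positivity) (Md_pos _ (by norm_num) _).le
    (by positivity)]
  have : (2 * n : ℝ) = ((2 * n : ℕ) : ℝ) := by push_cast; ring
  rw [this, rpow_natCast]
  exact h5

theorem lower_of_cert {n : ℕ} (hn : 1 ≤ n) {y : ℝ} (hT : Th (2 * n) (1 / 2) y = (n - 1) * π)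
    (y₀ : ℝ) (h0 : 0 < y₀) (h1 : 3.141593 ≤ ∑ j ∈ range (2 * n), R6 ((1 / 2 + (j : ℝ)) / y₀))
    (h : (2 * (n : ℝ) ^ 2 / 3.141592) ^ (4 * n) <
      ∏ j ∈ range (2 * n), ((1 / 2 + (j : ℝ)) ^ 2 + y₀ ^ 2)) :
    2 * (n : ℝ) ^ 2 / π < Md (2 * n) (1 / 2) y ^ (1 / (2 * n : ℝ)) := by
  refine lower_of_prod hn h0.le (le_y_of_sum hn hT h0 ?_) h
  exact (pi_lt_d6.le.trans h1).trans
    (Finset.sum_le_sum fun j _ => arctan_ge_R6 (by positivity))

theorem lower_small {n : ℕ} (hn : 1 ≤ n) (hn' : n ≤ 10) {y : ℝ} (hy : 0 ≤ y)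
    (hT : Th (2 * n) (1 / 2) y = (n - 1) * π) :
    2 * (n : ℝ) ^ 2 / π < Md (2 * n) (1 / 2) y ^ (1 / (2 * n : ℝ)) := by
  interval_cases n
  · exact lower_of_prod hn le_rfl hy (by norm_num [Finset.prod_range_succ])
  · exact lower_of_cert hn hT (13 / 8) (by norm_num) (by norm_num [Finset.sum_range_succ, R6])
      (by norm_num [Finset.prod_range_succ])
  · exact lower_of_cert hn hT (19 / 4) (by norm_num) (by norm_num [Finset.sum_range_succ, R6])
      (by norm_num [Finset.prod_range_succ])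
  · exact lower_of_cert hn hT (367 / 40) (by norm_num) (by norm_num [Finset.sum_range_succ, R6])
      (by norm_num [Finset.prod_range_succ])
  · exact lower_of_cert hn hT (1489 / 100) (by norm_num) (by norm_num [Finset.sum_range_succ, R6])
      (by norm_num [Finset.prod_range_succ])
  · exact lower_of_cert hn hT (2189 / 100) (by norm_num) (by norm_num [Finset.sum_range_succ, R6])
      (by norm_num [Finset.prod_range_succ])
  · exact lower_of_cert hn hT (754 / 25) (by norm_num) (by norm_num [Finset.sum_range_succ, R6])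
      (by norm_num [Finset.prod_range_succ])
  · exact lower_of_cert hn hT (9927 / 250) (by norm_num) (by norm_num [Finset.sum_range_succ, R6])
      (by norm_num [Finset.prod_range_succ])
  · exact lower_of_cert hn hT (6316 / 125) (by norm_num) (by norm_num [Finset.sum_range_succ, R6])
      (by norm_num [Finset.prod_range_succ])
  · exact lower_of_cert hn hT (31311 / 500) (by norm_num) (by norm_num [Finset.sum_range_succ, R6])
      (by norm_num [Finset.prod_range_succ])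

theorem S2 (N : ℕ) : ∑ j ∈ range N, ((1 : ℝ) / 2 + j) ^ 2 = (N : ℝ) ^ 3 / 3 - N / 12 := by
  induction N with
  | zero => simp
  | succ N ih => rw [sum_range_succ, ih]; push_cast; ring

theorem S3 (N : ℕ) : ∑ j ∈ range N, ((1 : ℝ) / 2 + j) ^ 3 = (N : ℝ) ^ 4 / 4 - N ^ 2 / 8 := by
  induction N with
  | zero => simp
  | succ N ih => rw [sum_range_succ, ih]; push_cast; ring

theorem S4 (N : ℕ) : ∑ j ∈ range N, ((1 : ℝ) / 2 + j) ^ 4 =
    (N : ℝ) ^ 5 / 5 - N ^ 3 / 6 + 7 * N / 240 := by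
  induction N with
  | zero => simp
  | succ N ih => rw [sum_range_succ, ih]; push_cast; ring

theorem S5 (N : ℕ) :
    ∑ j ∈ range N, ((1 : ℝ) / 2 + j) ^ 5 = (N : ℝ) ^ 6 / 6 - 5 * N ^ 4 / 24 + 7 * N ^ 2 / 96 := by
  induction N with
  | zero => simp
  | succ N ih => rw [sum_range_succ, ih]; push_cast; ring

theorem S7 (N : ℕ) : ∑ j ∈ range N, ((1 : ℝ) / 2 + j) ^ 7 =
    (N : ℝ) ^ 8 / 8 - 7 * N ^ 6 / 24 + 49 * N ^ 4 / 192 - 31 * N ^ 2 / 384 := by
  induction N with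
  | zero => simp
  | succ N ih => rw [sum_range_succ, ih]; push_cast; ring

theorem key_poly {x u : ℝ} (hx0 : 0 < x) (hx : x ≤ 9 / 100) (hu0 : 0 ≤ u) (hu : u ≤ x) :
    1 < (1 + (x / 6 - u / 24 - x ^ 2 / 20) + (x / 6 - u / 24 - x ^ 2 / 20) ^ 2 / 2) *
      (1 - x / 6 + u / 12 + x ^ 2 / 15 - x * u / 12 - x ^ 3 / 28) := by
  set a := x / 6 - x ^ 2 / 20 with ha
  set p := 1 - x / 6 + x ^ 2 / 15 - x ^ 3 / 28 with hp
  have ha0 : 0 ≤ a := by rw [ha]; nlinarith
  have ha1 : a ≤ 1 / 50 := by rw [ha]; nlinarith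
  have hx2 : x ^ 2 ≤ 1 / 100 := by nlinarith
  have hx3 : x ^ 3 ≤ 1 / 100 := by nlinarith
  have hx30 : 0 ≤ x ^ 3 := by positivity
  have hp0 : 9 / 10 ≤ p := by rw [hp]; nlinarith
  have hp1 : p ≤ 1 := by rw [hp]; nlinarith
  have h1 : 1 < (1 + a + a ^ 2 / 2) * p := by
    have e : (1 + a + a ^ 2 / 2) * p - 1 = x ^ 2 * (1 / 360 - 407 / 15120 * x - 173 / 30240 * x ^ 2
        + 53 / 100800 * x ^ 3 + 1 / 2625 * x ^ 4 - 1 / 22400 * x ^ 5) := by
      rw [ha, hp]; ring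
    have h2 : 0 < 1 / 360 - 407 / 15120 * x - 173 / 30240 * x ^ 2
        + 53 / 100800 * x ^ 3 + 1 / 2625 * x ^ 4 - 1 / 22400 * x ^ 5 := by
      have h4 : 0 ≤ x ^ 4 := by positivity
      have h5 : x ^ 5 ≤ x ^ 4 := by nlinarith
      nlinarith
    have := mul_pos (pow_pos hx0 2) h2
    linarith
  have e1 : (1 + (x / 6 - u / 24 - x ^ 2 / 20) + (x / 6 - u / 24 - x ^ 2 / 20) ^ 2 / 2) =
      (1 + a + a ^ 2 / 2) - u * (1 + a) / 24 + u ^ 2 / 1152 := by rw [ha]; ring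
  have e2 : (1 - x / 6 + u / 12 + x ^ 2 / 15 - x * u / 12 - x ^ 3 / 28) = p + u * (1 - x) / 12 := by
    rw [hp]; ring
  rw [e1, e2]
  clear_value a p
  have hE : 1 ≤ 1 + a + a ^ 2 / 2 := by nlinarith
  set E := 1 + a + a ^ 2 / 2 with hEdef
  clear_value E
  have h3 : 0 ≤ E * (1 - x) / 12 - (1 + a) * p / 24 - u * ((1 + a) * (1 - x)) / 288 := by
    have g1 : 9 / 10 ≤ E * (1 - x) := by nlinarith
    have g2 : (1 + a) * p ≤ 11 / 10 := by nlinarith
    have g3 : (1 + a) * (1 - x) ≤ 11 / 10 := by nlinarith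
    have g4 : u * ((1 + a) * (1 - x)) ≤ 1 := by nlinarith
    linarith
  have h4 := mul_nonneg hu0 h3
  have h5 : 0 ≤ u ^ 2 / 1152 * (p + u * (1 - x) / 12) := by
    have : 0 ≤ 1 - x := by linarith
    have : 0 ≤ p := by linarith
    positivity
  nlinarith

theorem lower_large {n : ℕ} (hn : 11 ≤ n) {y : ℝ}
    (hT : Th (2 * n) (1 / 2) y = (n - 1) * π) :
    2 * (n : ℝ) ^ 2 / π < Md (2 * n) (1 / 2) y ^ (1 / (2 * n : ℝ)) := by
  obtain ⟨N, hN⟩ : ∃ N : ℕ, N = 2 * n := ⟨_, rfl⟩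
  have hN' : (N : ℝ) = 2 * n := by rw [hN]; push_cast; ring
  have hN22 : (22 : ℝ) ≤ N := by
    have : 22 ≤ N := by omega
    exact_mod_cast this
  have hN0 : (0 : ℝ) < N := by linarith
  have hy : 10 * (N : ℝ) / 3 ≤ y := by
    refine le_y_of_sum (by omega) hT (by positivity) ?_
    rw [← hN]
    refine le_trans ?_ (Finset.sum_le_sum fun j _ => arctan_ge_three (by positivity))
    simp only [div_pow]
    rw [Finset.sum_sub_distrib, ← Finset.sum_div, ← Finset.sum_div, ← Finset.sum_div, sum_half, S3]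
    have e : (N : ℝ) ^ 2 / 2 / (10 * N / 3) - (N ^ 4 / 4 - N ^ 2 / 8) / ((10 * N) ^ 3 / 3 ^ 3) / 3 =
        N * (591 / 4000) + 9 / (8000 * N) := by
      field_simp; ring
    rw [e]
    have : 0 ≤ 9 / (8000 * (N : ℝ)) := by positivity
    linarith [pi_lt_d2]
  have hy0 : 0 < y := lt_of_lt_of_le (by positivity) hy
  rw [Th_compl _ (by norm_num) hy0, ← hN] at hT
  have hπ : ∑ j ∈ range N, arctan ((1 / 2 + (j : ℝ)) / y) = π := by
    rw [hN'] at hT; linarith
  set x : ℝ := (N / y) ^ 2 with hx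
  set u : ℝ := (1 / y) ^ 2 with hu
  have hx0 : 0 < x := by positivity
  have hx1 : x ≤ 9 / 100 := by
    have : (N : ℝ) / y ≤ 3 / 10 := by rw [div_le_iff₀ hy0]; linarith
    have h2 : 0 ≤ (N : ℝ) / y := by positivity
    rw [hx]; nlinarith
  have hu0 : 0 ≤ u := by positivity
  have hux : u ≤ x := by
    rw [hu, hx]; gcongr; linarith
  have hkey := key_poly hx0 hx1 hu0 hux
  set L := x / 6 - u / 24 - x ^ 2 / 20 with hL
  set P := 1 - x / 6 + u / 12 + x ^ 2 / 15 - x * u / 12 - x ^ 3 / 28 with hP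
  have hL0 : 0 ≤ L := by rw [hL]; nlinarith
  have hPπ : N ^ 2 / (2 * y) * P ≤ π := by
    rw [← hπ]
    refine le_trans ?_ (Finset.sum_le_sum fun j _ => arctan_ge_seven (by positivity))
    simp only [div_pow]
    rw [Finset.sum_sub_distrib, Finset.sum_add_distrib, Finset.sum_sub_distrib]
    simp only [← Finset.sum_div]
    rw [sum_half, S3, S5, S7, ← sub_nonneg]
    have e : (N : ℝ) ^ 2 / 2 / y - (N ^ 4 / 4 - N ^ 2 / 8) / y ^ 3 / 3 +
        (N ^ 6 / 6 - 5 * N ^ 4 / 24 + 7 * N ^ 2 / 96) / y ^ 5 / 5 -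
        (N ^ 8 / 8 - 7 * N ^ 6 / 24 + 49 * N ^ 4 / 192 - 31 * N ^ 2 / 384) / y ^ 7 / 7 -
        N ^ 2 / (2 * y) * P =
        7 * N ^ 2 / 480 / y ^ 5 + (N ^ 4 * (7 * N ^ 2 / 24 - 49 / 192) + 31 * N ^ 2 / 384) / y ^ 7 / 7 := by
      rw [hP, hx, hu]; field_simp; ring
    rw [e]
    have : 0 ≤ 7 * (N : ℝ) ^ 2 / 24 - 49 / 192 := by nlinarith
    positivity
  have hlog : N * (log y + L) ≤ log (Md N (1 / 2) y) := by
    rw [Md, Real.log_prod (fun j _ => (sqrt_pos.2 (by positivity)).ne')]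
    have h1 : ∀ j ∈ range N, log y + (((1 / 2 + (j : ℝ)) / y) ^ 2 / 2 - ((1 / 2 + (j : ℝ)) / y) ^ 4 / 4) ≤
        log √((1 / 2 + (j : ℝ)) ^ 2 + y ^ 2) := by
      intro j _
      have e : (1 / 2 + (j : ℝ)) ^ 2 + y ^ 2 = y ^ 2 * (1 + ((1 / 2 + (j : ℝ)) / y) ^ 2) := by
        field_simp; ring
      rw [log_sqrt (by positivity), e, log_mul (by positivity) (by positivity), log_pow]
      have := log_ge (u := ((1 / 2 + (j : ℝ)) / y) ^ 2) (by positivity)
      push_cast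
      nlinarith
    refine le_trans ?_ (Finset.sum_le_sum h1)
    simp only [div_pow]
    rw [Finset.sum_add_distrib, Finset.sum_sub_distrib]
    simp only [← Finset.sum_div]
    rw [S2, S4, sum_const, card_range, nsmul_eq_mul, ← sub_nonneg]
    have e : (N : ℝ) * log y + ((N ^ 3 / 3 - N / 12) / y ^ 2 / 2 -
        (N ^ 5 / 5 - N ^ 3 / 6 + 7 * N / 240) / y ^ 4 / 4) - N * (log y + L) =
        N * (N ^ 2 / 6 - 7 / 240) / y ^ 4 / 4 := by
      rw [hL, hx, hu]; field_simp; ring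
    rw [e]
    have : 0 ≤ (N : ℝ) ^ 2 / 6 - 7 / 240 := by nlinarith
    positivity
  rw [← hN, ← hN', rpow_def_of_pos (Md_pos _ (by norm_num) _)]
  have h1 : log y + L ≤ log (Md N (1 / 2) y) * (1 / N) := by
    rw [mul_one_div, le_div_iff₀ hN0]; linarith
  have h2 : y * (1 + L + L ^ 2 / 2) ≤ exp (log (Md N (1 / 2) y) * (1 / N)) := by
    refine le_trans ?_ (exp_le_exp.2 h1)
    rw [exp_add, exp_log hy0]
    exact mul_le_mul_of_nonneg_left (quadratic_le_exp_of_nonneg hL0) hy0.le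
  refine lt_of_lt_of_le ?_ h2
  rw [div_lt_iff₀ pi_pos]
  have h3 : 0 < y * (1 + L + L ^ 2 / 2) := by positivity
  have h4 := mul_le_mul_of_nonneg_left hPπ h3.le
  have e : y * (1 + L + L ^ 2 / 2) * (N ^ 2 / (2 * y) * P) = N ^ 2 / 2 * ((1 + L + L ^ 2 / 2) * P) := by
    field_simp
  rw [e] at h4
  have h5 : (N : ℝ) ^ 2 / 2 * 1 < N ^ 2 / 2 * ((1 + L + L ^ 2 / 2) * P) :=
    mul_lt_mul_of_pos_left hkey (by positivity)
  have h6 : 2 * (n : ℝ) ^ 2 = N ^ 2 / 2 := by rw [hN']; ring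
  linarith

theorem lower {n : ℕ} (hn : 1 ≤ n) {y : ℝ} (hy : 0 ≤ y)
    (hT : Th (2 * n) (1 / 2) y = (n - 1) * π) :
    2 * (n : ℝ) ^ 2 / π < Md (2 * n) (1 / 2) y ^ (1 / (2 * n : ℝ)) := by
  rcases le_or_gt n 10 with h | h
  · exact lower_small hn h hy hT
  · exact lower_large h hT

end Pool.Agent.MP_74ce82_an.H95
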