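import Pool.Agent.MP_74ce82_an.H95.Basic

/-!
Counting the roots of `∏_{j<2n} (z - j) + (-1)^n c` to the right of the line `Re z = -1/2`.
-/

open Finset Real Polynomial

namespace Pool.Agent.MP_74ce82_an.H95

/-- The falling factorial polynomial. -/
noncomputable def Qp (N : ℕ) : ℂ[X] := ∏ j ∈ range N, (X - C (j : ℂ))

/-- The characteristic polynomial. -/
noncomputable def Dp (n : ℕ) (c : ℝ) : ℂ[X] := Qp (2 * n) + C ((-1) ^ n * (c : ℂ))

theorem Qp_monic (N : ℕ) : (Qp N).Monic := monic_prod_of_monic _ _ fun _ _ => monic_X_sub_C _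

theorem Qp_natDegree (N : ℕ) : (Qp N).natDegree = N := by
  rw [Qp, natDegree_prod_of_monic _ _ (fun j _ => monic_X_sub_C ((j : ℕ) : ℂ))]
  simp only [natDegree_X_sub_C]
  simp

theorem Dp_natDegree (n : ℕ) (c : ℝ) : (Dp n c).natDegree = 2 * n := by
  rw [Dp, natDegree_add_C, Qp_natDegree]

theorem Dp_ne_zero {n : ℕ} (hn : 1 ≤ n) (c : ℝ) : Dp n c ≠ 0 := by
  intro h
  have := Dp_natDegree n c
  rw [h, natDegree_zero] at this
  omega

theorem mem_roots_Dp {n : ℕ} (hn : 1 ≤ n) (c : ℝ) (z : ℂ) :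
    z ∈ (Dp n c).roots ↔ ∏ j ∈ range (2 * n), (z - j) = ((-((-1) ^ n * c) : ℝ) : ℂ) := by
  rw [mem_roots (Dp_ne_zero hn c), IsRoot.def, Dp, eval_add, eval_C, Qp, eval_prod]
  simp only [eval_sub, eval_X, eval_C]
  push_cast
  exact add_eq_zero_iff_eq_neg

theorem real_polar {ρ θ s : ℝ} (hρ : 0 < ρ)
    (h : (ρ : ℂ) * Complex.exp (θ * Complex.I) = s) : ∃ k : ℤ, θ = k * π ∧ s = ρ * (-1) ^ k := by
  rw [Complex.exp_mul_I, ← Complex.ofReal_cos, ← Complex.ofReal_sin] at h
  have h1 := congrArg Complex.re h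
  have h2 := congrArg Complex.im h
  simp only [Complex.mul_re, Complex.ofReal_re, Complex.add_re, Complex.I_re, mul_zero,
    Complex.ofReal_im, Complex.I_im, mul_one, sub_self, add_zero, Complex.add_im, Complex.mul_im,
    zero_add, zero_mul, sub_zero] at h1 h2
  have h3 : sin θ = 0 := by
    rcases mul_eq_zero.1 h2 with h | h
    · exact absurd h hρ.ne'
    · exact h
  obtain ⟨k, hk⟩ := sin_eq_zero_iff.1 h3
  refine ⟨k, hk.symm, ?_⟩
  rw [← h1, ← hk, cos_int_mul_pi]

theorem left_polar (n : ℕ) {z : ℂ} (hz : z.re < 0) :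
    ∏ j ∈ range (2 * n), (z - j) =
      (Md (2 * n) (-z.re) (-z.im) : ℝ) *
        Complex.exp ((Th (2 * n) (-z.re) (-z.im) : ℝ) * Complex.I) := by
  have h := prod_polar (2 * n) (fun j => -z.re + j) (fun _ => -z.im)
    (fun j _ => by have : (0 : ℝ) ≤ j := by positivity
                   linarith)
  unfold Md Th
  rw [← h]
  have : ∀ j ∈ range (2 * n), (z - j) =
      (-1) * (((-z.re + j : ℝ) : ℂ) + ((-z.im : ℝ) : ℂ) * Complex.I) := by
    intro j _
    apply Complex.ext <;> simp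
    ring
  rw [Finset.prod_congr rfl this, Finset.prod_mul_distrib]
  simp

theorem left_simple {n : ℕ} (hn : 1 ≤ n) (c : ℝ) {z : ℂ} (hz : z.re < 0) :
    (Dp n c).roots.count z ≤ 1 := by
  rw [count_roots]
  by_contra hlt
  push Not at hlt
  have h2 := ((one_lt_rootMultiplicity_iff_isRoot (Dp_ne_zero hn c)).1 hlt).2
  have h3 : derivative (Dp n c) = derivative (Qp (2 * n)) := by simp [Dp]
  rw [h3] at h2
  have hdeg : 0 < (Qp (2 * n)).degree := by
    rw [← natDegree_pos_iff_degree_pos, Qp_natDegree]; omega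
  have hne : derivative (Qp (2 * n)) ≠ 0 := by
    intro h
    have := derivative_eq_zero.1 h
    rw [Qp_natDegree] at this
    omega
  have h4 : z ∈ (derivative (Qp (2 * n))).rootSet ℂ := by
    rw [mem_rootSet]
    exact ⟨hne, by simpa using h2⟩
  have h5 := rootSet_derivative_subset_convexHull_rootSet hdeg h4
  have h6 : (Qp (2 * n)).rootSet ℂ ⊆ {w : ℂ | 0 ≤ w.re} := by
    intro w hw
    rw [mem_rootSet] at hw
    have := hw.2
    simp only [Qp, coe_aeval_eq_eval, eval_prod, eval_sub, eval_X, eval_C, prod_eq_zero_iff] at this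
    obtain ⟨j, -, hj⟩ := this
    rw [sub_eq_zero.1 hj]
    simp
  have h7 := convexHull_min h6 (convex_halfSpace_re_ge 0) h5
  exact absurd h7 (not_le.2 hz)

theorem left_count {n : ℕ} (hn : 1 ≤ n) {y₀ : ℝ} (hy₀ : 0 ≤ y₀)
    (hT : Th (2 * n) (1 / 2) y₀ = (n - 1) * π) {c : ℝ} (hc : c < Md (2 * n) (1 / 2) y₀) :
    ((Dp n c).roots.filter (fun z => ¬ (-1 / 2 < z.re))).card ≤ n - 1 := by
  classical
  have hN : 0 < 2 * n := by omega
  set M := (Dp n c).roots.filter (fun z => ¬ (-1 / 2 < z.re)) with hM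
  have hmem : ∀ z ∈ M, z ∈ (Dp n c).roots ∧ 1 / 2 ≤ -z.re := by
    intro z hz
    rw [hM, Multiset.mem_filter] at hz
    exact ⟨hz.1, by linarith [not_lt.1 hz.2]⟩
  have hnd : M.Nodup := by
    rw [Multiset.nodup_iff_count_le_one]
    intro z
    by_cases hz : z ∈ M
    · exact (Multiset.count_le_of_le z (Multiset.filter_le _ _)).trans
        (left_simple hn c (by linarith [(hmem z hz).2]))
    · rw [Multiset.count_eq_zero_of_notMem hz]; norm_num
  have hk : ∀ z ∈ M, ∃ k : ℤ, Th (2 * n) (-z.re) (-z.im) = k * π ∧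
      -((-1) ^ n * c) = Md (2 * n) (-z.re) (-z.im) * (-1) ^ k ∧ |k| ≤ n - 2 := by
    intro z hz
    obtain ⟨h1, h2⟩ := hmem z hz
    have hx : 0 < -z.re := by linarith
    rw [mem_roots_Dp hn, left_polar n (by linarith)] at h1
    obtain ⟨k, hk1, hk2⟩ := real_polar (Md_pos _ hx _) h1
    refine ⟨k, hk1, hk2, ?_⟩
    have h3 : |(k : ℝ)| * π = Th (2 * n) (-z.re) |-z.im| := by
      rw [← Th_abs hN hx, hk1, abs_mul, abs_of_pos pi_pos]
    have h4 : |k| < n := by
      have := Th_lt hN (-z.re) |-z.im|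
      rw [← h3] at this
      push_cast at this
      have h5 : |(k : ℝ)| < n := by nlinarith [pi_pos]
      exact_mod_cast h5
    by_contra hcon
    have h5 : |k| = n - 1 := by omega
    have h6 : |(k : ℝ)| = n - 1 := by exact_mod_cast h5
    have h7 : Th (2 * n) (1 / 2) y₀ ≤ Th (2 * n) (1 / 2) |-z.im| := by
      rw [hT, ← h6, h3]
      exact Th_anti (by norm_num) h2 (abs_nonneg _)
    have h8 : y₀ ≤ |-z.im| := (Th_strictMono hN (by norm_num)).le_iff_le.1 h7
    have h9 : Md (2 * n) (1 / 2) y₀ ≤ Md (2 * n) (-z.re) (-z.im) := by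
      rw [← Md_abs _ (-z.re)]
      exact Md_mono _ (by norm_num) h2 hy₀ h8
    have h10 : ((-1 : ℝ)) ^ k = -(-1) ^ n := by
      rcases Nat.even_or_odd n with he | ho
      · have : Odd k := by
          rw [← odd_abs, h5]
          exact ((Int.even_coe_nat n).2 he).sub_odd odd_one
        rw [this.neg_one_zpow, he.neg_one_pow]
      · have : Even k := by
          rw [← even_abs, h5]
          exact ((Int.odd_coe_nat n).2 ho).sub_odd odd_one
        rw [this.neg_one_zpow, ho.neg_one_pow, neg_neg]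
    rw [h10] at hk2
    have h11 : c = Md (2 * n) (-z.re) (-z.im) := by
      have h12 : ((-1 : ℝ)) ^ n ≠ 0 := by positivity
      apply mul_left_cancel₀ h12
      linarith
    linarith
  choose! κ hκ1 hκ2 hκ3 using hk
  rw [← Multiset.toFinset_card_of_nodup hnd]
  have hcard : (Finset.Icc (1 : ℤ) (n - 1)).card = n - 1 := by
    rw [Int.card_Icc]; omega
  rw [← hcard]
  refine Finset.card_le_card_of_injOn (fun z => (κ z + n) / 2) (fun z hz => ?_) ?_
  · have := abs_le.1 (hκ3 z (Multiset.mem_toFinset.1 hz))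
    simp only [coe_Icc, Set.mem_Icc]
    omega
  · intro z hz w hw h
    have hz' := Multiset.mem_toFinset.1 hz
    have hw' := Multiset.mem_toFinset.1 hw
    have hzx : 0 < -z.re := by linarith [(hmem z hz').2]
    have hwx : 0 < -w.re := by linarith [(hmem w hw').2]
    have p1 := Md_pos (2 * n) hzx (-z.im)
    have p2 := Md_pos (2 * n) hwx (-w.im)
    have e := (hκ2 z hz').symm.trans (hκ2 w hw')
    have hkk : κ z = κ w := by
      simp only at h
      rcases Int.even_or_odd (κ z) with a | a <;> rcases Int.even_or_odd (κ w) with b | b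
      · obtain ⟨a, ha⟩ := a; obtain ⟨b, hb⟩ := b; omega
      · rw [a.neg_one_zpow, b.neg_one_zpow] at e; linarith
      · rw [a.neg_one_zpow, b.neg_one_zpow] at e; linarith
      · obtain ⟨a, ha⟩ := a; obtain ⟨b, hb⟩ := b; omega
    have hMd : Md (2 * n) (-z.re) (-z.im) = Md (2 * n) (-w.re) (-w.im) := by
      rw [hkk] at e
      exact mul_right_cancel₀ (by positivity) e
    have hTh : Th (2 * n) (-z.re) (-z.im) = Th (2 * n) (-w.re) (-w.im) := by
      rw [hκ1 z hz', hκ1 w hw', hkk]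
    obtain ⟨h1, h2⟩ := inj_of_Th_Md hN hzx hwx hTh hMd
    exact Complex.ext (neg_injective h1) (neg_injective h2)

theorem norm_prod_eq_Mq (N : ℕ) (z : ℂ) : ‖∏ j ∈ range N, (z - j)‖ = Mq N z.re z.im := by
  rw [norm_prod, Mq]
  refine Finset.prod_congr rfl fun j _ => ?_
  rw [Complex.norm_eq_sqrt_sq_add_sq]
  simp

theorem strip_im_le {n : ℕ} (hn : 1 ≤ n) {y₀ : ℝ}
    (hT : Th (2 * n) (1 / 2) y₀ = (n - 1) * π) {c : ℝ} (hc : 0 < c) {z : ℂ}
    (hz : ∏ j ∈ range (2 * n), (z - j) = ((-((-1) ^ n * c) : ℝ) : ℂ))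
    (h1 : -1 / 2 < z.re) (h2 : z.re ≤ n - 1 / 2) (hy : 0 < z.im) : z.im ≤ y₀ := by
  have hN : 0 < 2 * n := by omega
  set x := z.re with hx
  set y := z.im with hy'
  have hp := prod_polar (2 * n) (fun _ => y) (fun j => j - x) (fun _ _ => hy)
  have e1 : ∀ j ∈ range (2 * n), (z - j) =
      Complex.I * ((y : ℂ) + ((j - x : ℝ) : ℂ) * Complex.I) := by
    intro j _
    apply Complex.ext <;> simp [hx, hy']
  rw [Finset.prod_congr rfl e1, Finset.prod_mul_distrib, hp, Finset.prod_const, card_range,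
    pow_mul, Complex.I_sq] at hz
  set ρ := ∏ j ∈ range (2 * n), √(y ^ 2 + ((j : ℝ) - x) ^ 2) with hρ
  set Ψ := ∑ j ∈ range (2 * n), arctan (((j : ℝ) - x) / y) with hΨ
  have hρ0 : 0 < ρ := Finset.prod_pos fun j _ => sqrt_pos.2 (by positivity)
  have hz' : (ρ : ℂ) * Complex.exp (Ψ * Complex.I) = ((-c : ℝ) : ℂ) := by
    have h3 : ((-1 : ℂ)) ^ n ≠ 0 := pow_ne_zero _ (by norm_num)
    apply mul_left_cancel₀ h3
    rw [hz]; push_cast; ring
  obtain ⟨k, hk1, hk2⟩ := real_polar hρ0 hz'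
  have hodd : Odd k := by
    rcases Int.even_or_odd k with a | a
    · rw [a.neg_one_zpow] at hk2; linarith
    · exact a
  have hΨ0 : 0 ≤ Ψ := by
    have h3 : ∑ j ∈ range (2 * n), arctan (((j : ℝ) - (n - 1 / 2)) / y) ≤ Ψ :=
      Finset.sum_le_sum fun j _ => arctan_mono (by gcongr)
    have h4 := Finset.sum_range_reflect (fun j => arctan (((j : ℝ) - (n - 1 / 2)) / y)) (2 * n)
    have h5 : ∑ j ∈ range (2 * n), arctan ((((2 * n - 1 - j : ℕ) : ℝ) - (n - 1 / 2)) / y) =
        -∑ j ∈ range (2 * n), arctan (((j : ℝ) - (n - 1 / 2)) / y) := by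
      rw [← Finset.sum_neg_distrib]
      refine Finset.sum_congr rfl fun j hj => ?_
      have hj' := mem_range.1 hj
      rw [← arctan_neg, ← neg_div, Nat.cast_sub (by omega), Nat.cast_sub (by omega)]
      push_cast
      congr 2
      ring
    linarith
  have hk0 : 1 ≤ k := by
    have h3 : (0 : ℝ) ≤ k := by
      rw [hk1] at hΨ0
      exact nonneg_of_mul_nonneg_left hΨ0 pi_pos
    have h4 : 0 ≤ k := by exact_mod_cast h3
    obtain ⟨a, ha⟩ := hodd
    omega
  have hΨπ : π ≤ Ψ := by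
    have : (1 : ℝ) ≤ k := by exact_mod_cast hk0
    rw [hk1]; nlinarith [pi_pos]
  have h6 : Ψ ≤ ∑ j ∈ range (2 * n), arctan ((1 / 2 + (j : ℝ)) / y) :=
    Finset.sum_le_sum fun j _ => arctan_mono (by gcongr; linarith)
  have h7 : Th (2 * n) (1 / 2) y ≤ Th (2 * n) (1 / 2) y₀ := by
    rw [hT, Th_compl _ (by norm_num) hy]
    push_cast
    linarith
  exact (Th_strictMono hN (by norm_num)).le_iff_le.1 h7

theorem strip_free {n : ℕ} (hn : 1 ≤ n) {y₀ : ℝ} (hy₀ : 0 ≤ y₀)
    (hT : Th (2 * n) (1 / 2) y₀ = (n - 1) * π) {c : ℝ} (hc : Md (2 * n) (1 / 2) y₀ ≤ c) {z : ℂ}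
    (hz : z ∈ (Dp n c).roots) (h1 : -1 / 2 < z.re) : (n : ℝ) - 1 / 2 < z.re := by
  by_contra h2
  push Not at h2
  have hc0 : 0 < c := (Md_pos _ (by norm_num) _).trans_le hc
  rw [mem_roots_Dp hn] at hz
  have him : |z.im| ≤ y₀ := by
    rcases lt_trichotomy z.im 0 with h | h | h
    · have hz' : ∏ j ∈ range (2 * n), ((starRingEnd ℂ) z - j) = ((-((-1) ^ n * c) : ℝ) : ℂ) := by
        have := congrArg (starRingEnd ℂ) hz
        rw [map_prod, Complex.conj_ofReal] at this
        simpa using this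
      have := strip_im_le hn hT hc0 hz' (by simpa using h1) (by simpa using h2) (by simpa using h)
      rw [abs_of_neg h]
      simpa using this
    · simpa [h] using hy₀
    · rw [abs_of_pos h]
      exact strip_im_le hn hT hc0 hz h1 h2 h
  have h3 : Mq (2 * n) z.re z.im = c := by
    rw [← norm_prod_eq_Mq, hz]
    simp [abs_of_pos hc0]
  have h4 := Mq_lt (N := 2 * n) (by omega) z.im n z.re h1 (by linarith) (by push_cast; linarith)
  have h5 : Md (2 * n) (1 / 2) z.im ≤ Md (2 * n) (1 / 2) y₀ := by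
    rw [← Md_abs]
    exact Md_mono _ (by norm_num) le_rfl (abs_nonneg _) him
  linarith

theorem Dp_symm {n : ℕ} (hn : 1 ≤ n) (c : ℝ) :
    (Dp n c).roots.map (fun z => (-1) * z + (2 * n - 1 : ℂ)) = (Dp n c).roots := by
  have h := map_roots_comp_C_mul_X_add_C (Dp n c) (-1) (2 * n - 1 : ℂ) isUnit_neg_one
  have e : (Dp n c).comp (C (-1) * X + C (2 * n - 1 : ℂ)) = Dp n c := by
    apply Polynomial.funext
    intro z
    simp only [Dp, Qp, eval_comp, eval_add, eval_mul, eval_C, eval_X, eval_prod, eval_sub]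
    congr 1
    rw [← Finset.prod_range_reflect]
    have : ∀ j ∈ range (2 * n), (-1 * z + (2 * n - 1) - ((2 * n - 1 - j : ℕ) : ℂ)) =
        (-1) * (z - j) := by
      intro j hj
      have hj' := mem_range.1 hj
      rw [Nat.cast_sub (by omega), Nat.cast_sub (by omega)]
      push_cast
      ring
    rw [Finset.prod_congr rfl this, Finset.prod_mul_distrib]
    simp
  rwa [e] at h

theorem threshold {n : ℕ} (hn : 1 ≤ n) {y₀ : ℝ} (hy₀ : 0 ≤ y₀)
    (hT : Th (2 * n) (1 / 2) y₀ = (n - 1) * π) (c : ℝ) :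
    ((Dp n c).roots.filter (fun z => -1 / 2 < z.re)).card = n ↔ Md (2 * n) (1 / 2) y₀ ≤ c := by
  have htot : ((Dp n c).roots.filter (fun z => -1 / 2 < z.re)).card +
      ((Dp n c).roots.filter (fun z => ¬ (-1 / 2 < z.re))).card = 2 * n := by
    rw [← Multiset.card_add, Multiset.filter_add_not, IsAlgClosed.card_roots_eq_natDegree,
      Dp_natDegree]
  constructor
  · intro h
    by_contra hc
    have := left_count hn hy₀ hT (not_le.1 hc)
    omega
  · intro hc
    have hn' : (1 : ℝ) ≤ n := by exact_mod_cast hn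
    have h1 : ((Dp n c).roots.filter (fun z => -1 / 2 < z.re)).card =
        ((Dp n c).roots.filter (fun z => ¬ (-1 / 2 < z.re))).card := by
      conv_lhs => rw [← Dp_symm hn c, Multiset.filter_map, Multiset.card_map]
      congr 1
      refine Multiset.filter_congr fun z hz => ?_
      have hz' : (-1) * z + (2 * n - 1 : ℂ) ∈ (Dp n c).roots := by
        rw [← Dp_symm hn c]
        exact Multiset.mem_map_of_mem _ hz
      have hre : ((-1) * z + (2 * n - 1 : ℂ)).re = -z.re + (2 * n - 1) := by simp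
      simp only [Function.comp_apply]
      constructor
      · intro h2 h3
        have h4 := strip_free hn hy₀ hT hc hz h3
        have h5 := strip_free hn hy₀ hT hc hz' h2
        rw [hre] at h5
        linarith
      · intro h2
        rw [hre]
        linarith [not_lt.1 h2]
    omega

end Pool.Agent.MP_74ce82_an.H95
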